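import Pool.Agent.H31.FW.TargetsG
import Pool.Agent.H56.DW.BQ

/-!
# Board fw_modules, module BQ: the bound for the dual sum (copy of H56/DW/BQ)
-/

set_option autoImplicit false

open NumberField NumberField.InfinitePlace NumberField.Units
  NumberField.Units.dirichletUnitTheorem MeasureTheory Set Filter Complex
open scoped nonZeroDivisors ENNReal

namespace Pool.Agent.H54.FW.BQ

open Pool.Agent.H25.HK Pool.Agent.H23.LB Pool.Agent.H23.LC Pool.Agent.H29.DW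
open Pool.Agent.H28.RC (Rep ft idl)
open Pool.Agent.H29.TC (dvs cq LC Gn cr)
open Pool.Agent.H31.FW
open Pool.Agent.H56.DW (ec_norm ek_norm one_le_Nf Nf_mul one_le_disc one_le_tor cw_le cw_nonneg
  one_le_dvs norm_ft_le ft_split sum_int_le Wt_bound)

section

variable {K : Type} [Field K] [NumberField K]

theorem gq_ne {l g q : Ideal (𝓞 K)} (h : GQ l g q) : g * q ≠ ⊥ := by
  rw [← Ideal.zero_eq_bot]
  exact mul_ne_zero h.g_ne h.q_ne

theorem f_ne {l g q : Ideal (𝓞 K)} (h : GQ l g q) : l * (g * q) ≠ ⊥ := by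
  rw [← Ideal.zero_eq_bot]
  exact mul_ne_zero h.l_ne (gq_ne h)

theorem j_ne {l g q : Ideal (𝓞 K)} (h : GQ l g q) : l * g ≠ ⊥ := by
  rw [← Ideal.zero_eq_bot]
  exact mul_ne_zero h.l_ne h.g_ne

theorem Nf_f (l g q : Ideal (𝓞 K)) : Nf K (l * (g * q)) = Nf K (l * g) * Nf K q := by
  rw [Nf_mul, Nf_mul, Nf_mul]
  ring

theorem PrG_gq {f l g q : Ideal (𝓞 K)} (h : GQ l g q) {χ : HG K f} (hχ : PrG q χ) :
    PrG (g * q) χ := by
  intro P hP hgq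
  have h1 : q ≤ P := by
    rcases (Ideal.IsPrime.mul_le hP).1 hgq with h2 | h2
    · exact h.rad P hP h2
    · exact h2
  exact hχ P hP h1

theorem dvs_mono (hDF : Pool.Agent.H29.TC.T_DF) {a b : Ideal (𝓞 K)} (ha : a ≠ ⊥) (hb : b ≠ ⊥)
    (hab : a ≤ b) : ((dvs K b).card : ℝ) ≤ ((dvs K a).card : ℝ) := by
  have : dvs K b ⊆ dvs K a := by
    intro e he
    rw [hDF K a ha e]
    exact hab.trans ((hDF K b hb e).1 he)
  exact_mod_cast Finset.card_le_card this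

open scoped Classical in
/-- the dual coefficients and functions with bounded correlations -/
theorem local_dual (hSG : Q_SG) (hCC : Q_CC) (hCG : U_CG) (hGX : Pool.Agent.H29.TC.T_GX)
    (hTR : Q_TR) (hRX : Pool.Agent.H28.RC.T_RX)
    (hTH : Pool.Agent.H25.HK.T_TH) {n : ℕ} (hn : Module.finrank ℚ K = n)
    {l g q : Ideal (𝓞 K)} (h : GQ l g q)
    (χ : HG K (l * (g * q))) (hχ : PrG q χ) (D : Sys K (l * (g * q))) (i : D.ι)
    (Y : Finset K) (hL : du K (((l * (g * q) : Ideal (𝓞 K)) : FI K) * D.M i) ≠ 0)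
    (hY : Rep K (l * g) (du K (((l * (g * q) : Ideal (𝓞 K)) : FI K) * D.M i)) Y) :
    ∃ f : K → ℂ, CorQ (l * g) q (du K (((l * (g * q) : Ideal (𝓞 K)) : FI K) * D.M i)) f
      (DQ n (g * q)) ∧
      ∀ (cp : InfinitePlace K → ℂ) (H : InfinitePlace K → ℝ) (p : InfinitePlace K → ℂ → ℂ)
        (y : InfinitePlace K → ℝ) (ω : InfinitePlace K → ℂ), (∀ v, 1 ≤ H v) →
        (∀ v x, 1 / 16 < ‖x‖ → p v x = 0) → Pos ω →
        ‖∑' x : {x : K // x ∈ du K (((l * (g * q) : Ideal (𝓞 K)) : FI K) * D.M i)},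
          ch D χ i x * Wg cp H p x y ω‖ ^ 2 ≤
        (Nf K (l * g) * Nf K (l * (g * q))) * ∑ r ∈ Y, ‖Sq (l * g)
          (du K (((l * (g * q) : Ideal (𝓞 K)) : FI K) * D.M i)) f r cp H p y ω‖ ^ 2 := by
  have hf := f_ne h
  have hM := D.reps.1 i
  obtain ⟨η, hη, hc⟩ := hSG K l (g * q) h.l_ne (gq_ne h) h.cop χ (PrG_gq h hχ)
  obtain ⟨x₀, hx₀⟩ := hGX K _ (D.M i) hf hM
  obtain ⟨y₀, hy₀⟩ := hGX K _ _ hf hL
  obtain ⟨c, hc1, hc2, hc3⟩ := hc (D.M i) x₀ hM hx₀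
  obtain ⟨X₁, hX₁, hX₁c⟩ := hRX K (l * g) (D.M i) (j_ne h) hM
  refine ⟨fun y => (starRingEnd ℂ) (cq (g * q) η
    (du K (((l * (g * q) : Ideal (𝓞 K)) : FI K) * D.M i)) y₀ y),
    (hCC n K hn l g q h η hη _ y₀ hL hy₀).2, ?_⟩
  intro cp H p y ω hH hp hω
  have hfin := fin_W hTH (M := du K (((l * (g * q) : Ideal (𝓞 K)) : FI K) * D.M i)) hL
    (cp := cp) (y := y) hω hH hp
  have hsum : ∀ a : K → ℂ, Summable (fun x : {x : K //
      x ∈ du K (((l * (g * q) : Ideal (𝓞 K)) : FI K) * D.M i)} =>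
        a x * Wg cp H p x y ω) := by
    intro a
    refine summable_of_finite_support (hfin.subset ?_)
    intro x hx h0
    exact hx (by simp only [h0, mul_zero])
  have hb : Summable (fun x : {x : K //
      x ∈ du K (((l * (g * q) : Ideal (𝓞 K)) : FI K) * D.M i)} =>
        ‖Wg cp H p x y ω‖) := by
    have := (hsum fun _ => 1).norm
    simpa using this
  have hT := hTR K l g q h η hη (D.M i) x₀ y₀ c (D.X i) X₁ Y hM hx₀ hy₀ hc1 hc2
    (D.rep i) hX₁ hY (fun x => Wg cp H p x y ω) hb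
  have hsplit : ∑' x : {x : K //
      x ∈ du K (((l * (g * q) : Ideal (𝓞 K)) : FI K) * D.M i)},
        ch D χ i x * Wg cp H p x y ω =
      ∑ r ∈ X₁, ∑' x : {x : K //
        x ∈ du K (((l * (g * q) : Ideal (𝓞 K)) : FI K) * D.M i)},
        ft K (D.X i) (cr K (l * g) (D.M i) (fun x => c x * cq (g * q) η (D.M i) x₀ x) r) x *
          Wg cp H p x y ω := by
    rw [← Summable.tsum_finsetSum (fun r _ => hsum _)]
    refine tsum_congr fun x => ?_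
    rw [← Finset.sum_mul]
    congr 1
    exact ft_split (D.rep i) hX₁ _ _ hc3 x
  rw [hsplit]
  have hN0 : 0 ≤ Nf K (l * g) := by
    unfold Nf
    positivity
  calc _ ≤ (∑ r ∈ X₁, ‖∑' x : {x : K //
        x ∈ du K (((l * (g * q) : Ideal (𝓞 K)) : FI K) * D.M i)},
        ft K (D.X i) (cr K (l * g) (D.M i) (fun x => c x * cq (g * q) η (D.M i) x₀ x) r) x *
          Wg cp H p x y ω‖) ^ 2 := by
        gcongr
        exact norm_sum_le _ _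
    _ ≤ (X₁.card : ℝ) * _ := sq_sum_le_card_mul_sum_sq
    _ ≤ Nf K (l * g) * (Nf K (l * (g * q)) * ∑ r ∈ Y, ‖Sq (l * g)
        (du K (((l * (g * q) : Ideal (𝓞 K)) : FI K) * D.M i))
          (fun y => (starRingEnd ℂ) (cq (g * q) η
            (du K (((l * (g * q) : Ideal (𝓞 K)) : FI K) * D.M i)) y₀ y)) r cp H p y ω‖ ^ 2) := by
        rw [hX₁c]
        exact mul_le_mul_of_nonneg_left hT hN0
    _ = _ := by ring

theorem X_facts {n : ℕ} (hn : Module.finrank ℚ K = n) {l g q : Ideal (𝓞 K)} (h : GQ l g q)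
    (χ : HG K (l * (g * q))) (t : ℝ) :
    1 ≤ Real.sqrt (|(discr K : ℝ)| * Nf K (l * (g * q)) * Ci χ.k χ.ν t) ∧
    Real.sqrt (|(discr K : ℝ)| * Nf K (l * (g * q)) * Ci χ.k χ.ν t) ^ 2 ≤
      3 ^ n * (|(discr K : ℝ)| * Nf K (l * g) * Nf K q * HH (Hpar (cpar χ.k χ.ν t)) ^ 3) := by
  have h1 := one_le_disc (K := K)
  have h2 := one_le_Nf (f_ne h)
  have h3 := one_le_Ci χ.k χ.ν t
  have h4 := Ci_le hn χ.k χ.ν t χ.real_k
  have h5 : 1 ≤ |(discr K : ℝ)| * Nf K (l * (g * q)) * Ci χ.k χ.ν t :=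
    one_le_mul_of_one_le_of_one_le (one_le_mul_of_one_le_of_one_le h1 h2) h3
  refine ⟨Real.one_le_sqrt.2 h5, ?_⟩
  rw [Real.sq_sqrt (by linarith)]
  calc |(discr K : ℝ)| * Nf K (l * (g * q)) * Ci χ.k χ.ν t ≤
      |(discr K : ℝ)| * Nf K (l * (g * q)) * (3 ^ n * HH (Hpar (cpar χ.k χ.ν t)) ^ 3) := by
        gcongr
    _ = _ := by
      rw [Nf_f]
      ring

/-- the bound for the divisors -/
theorem dv_le {n : ℕ} {ε Cd Y : ℝ} (hε : 0 < ε) (hDF : Pool.Agent.H29.TC.T_DF)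
    {l g q : Ideal (𝓞 K)} (h : GQ l g q)
    (hCd : ((dvs K (g * q)).card : ℝ) ≤ Cd * Nf K (g * q) ^ (ε / 6))
    (hY : Nf K (l * (g * q)) ≤ Y) :
    ((dvs K q).card : ℝ) * DQ n (g * q) ≤ 4 ^ (n * (n + 1)) * Cd ^ 3 * Y ^ (ε / 2) := by
  have hgq := gq_ne h
  have h1 : ((dvs K q).card : ℝ) ≤ ((dvs K (g * q)).card : ℝ) :=
    dvs_mono hDF hgq h.q_ne Ideal.mul_le_right
  have hN1 := one_le_Nf hgq
  have hN2 : Nf K (g * q) ≤ Y := by
    refine le_trans ?_ hY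
    rw [Nf_mul l]
    exact le_mul_of_one_le_left (by linarith) (one_le_Nf h.l_ne)
  have hD0 : (0 : ℝ) ≤ ((dvs K (g * q)).card : ℝ) := by positivity
  have hY0 : 0 < Y := by linarith
  have h2 : Nf K (g * q) ^ (ε / 6) ≤ Y ^ (ε / 6) :=
    Real.rpow_le_rpow (by linarith) hN2 (by positivity)
  have hCd0 : 0 ≤ Cd := by
    by_contra hneg
    have h5 : 0 < Nf K (g * q) ^ (ε / 6) := Real.rpow_pos_of_pos (by linarith) _
    have : Cd * Nf K (g * q) ^ (ε / 6) < 0 := mul_neg_of_neg_of_pos (not_le.1 hneg) h5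
    linarith
  have h3 : ((dvs K (g * q)).card : ℝ) ≤ Cd * Y ^ (ε / 6) :=
    hCd.trans (mul_le_mul_of_nonneg_left h2 hCd0)
  have e : Y ^ (ε / 2) = (Y ^ (ε / 6)) ^ 3 := by
    rw [← Real.rpow_natCast, ← Real.rpow_mul hY0.le]
    congr 1
    push_cast
    ring
  unfold DQ
  rw [e]
  calc ((dvs K q).card : ℝ) * (4 ^ (n * (n + 1)) * ((dvs K (g * q)).card : ℝ) ^ 2) ≤
      ((dvs K (g * q)).card : ℝ) * (4 ^ (n * (n + 1)) * ((dvs K (g * q)).card : ℝ) ^ 2) := by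
        gcongr
    _ = 4 ^ (n * (n + 1)) * ((dvs K (g * q)).card : ℝ) ^ 3 := by ring
    _ ≤ 4 ^ (n * (n + 1)) * (Cd * Y ^ (ε / 6)) ^ 3 := by gcongr
    _ = _ := by ring

end

/-- the numerical part -/
theorem numer {n : ℕ} {ε C E c₀ w W s T B hR cv' E₀ d j Q H Ci : ℝ} (hε : 0 < ε) (hε1 : ε ≤ 1)
    (hC : 0 ≤ C) (hc₀ : 0 < c₀) (hw : 1 ≤ w) (hcv : cv' ≤ w)
    (hs : 0 < s) (hT : 0 ≤ T) (hR0 : 0 ≤ hR) (hE0 : 0 ≤ E₀) (hd : 1 ≤ d) (hj : 1 ≤ j)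
    (hQ : 1 ≤ Q) (hH : 1 ≤ H) (hCi : 1 ≤ Ci) (hE : E₀ ≤ E * (d * (j * Q) * Ci) ^ (ε / 2))
    (hHC : H ≤ 2 ^ n * Ci ^ (1 / 3 : ℝ)) (hW : c₀ * H⁻¹ ≤ W)
    (h : (w * W * s * T) ^ 2 ≤ C * B ^ 2 * (j * s ^ 2) * hR * cv' * E₀ *
      (d * j * Q * H) ^ (ε / 2) * H⁻¹ * (1 + Real.sqrt Q / j)) :
    T ^ 2 ≤ (c₀⁻¹ ^ 2 * C * E * 2 ^ n * 2 ^ n) * B ^ 2 * (d * (j * Q) * Ci) ^ ε *
      (hR * (j + Real.sqrt Q) * Ci ^ (1 / 3 : ℝ)) := by
  have hk0 : 0 ≤ Real.sqrt Q := Real.sqrt_nonneg Q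
  set k : ℝ := Real.sqrt Q with hk
  have hH0 : 0 < H := by linarith
  have hj0 : 0 < j := by linarith
  have hQ0 : 0 < Q := by linarith
  have hd0 : 0 < d := by linarith
  have hw0 : 0 < w := by linarith
  have hCi0 : 0 < Ci := by linarith
  have hP0 : 0 ≤ (d * j * Q * H) ^ (ε / 2) := Real.rpow_nonneg (by positivity) _
  have hC3 : 0 < Ci ^ (1 / 3 : ℝ) := Real.rpow_pos_of_pos hCi0 _
  -- divide
  have h1 : (w * (c₀ * H⁻¹) * s * T) ^ 2 ≤ (w * W * s * T) ^ 2 := by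
    have : 0 < c₀ * H⁻¹ := by positivity
    gcongr
  have h2 : C * B ^ 2 * (j * s ^ 2) * hR * cv' * E₀ *
      (d * j * Q * H) ^ (ε / 2) * H⁻¹ * (1 + k / j) ≤
      C * B ^ 2 * (j * s ^ 2) * hR * w ^ 2 * E₀ *
      (d * j * Q * H) ^ (ε / 2) * H⁻¹ * (1 + k / j) := by
    have : cv' ≤ w ^ 2 := by nlinarith
    gcongr
  have h3 := (h1.trans h).trans h2
  have h4 : T ^ 2 ≤ c₀⁻¹ ^ 2 * (C * B ^ 2 * hR * E₀ * (d * j * Q * H) ^ (ε / 2) * H *
      (j + k)) := by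
    have e1 : (w * (c₀ * H⁻¹) * s * T) ^ 2 = (w ^ 2 * c₀ ^ 2 * H⁻¹ ^ 2 * s ^ 2) * T ^ 2 := by ring
    have e2 : C * B ^ 2 * (j * s ^ 2) * hR * w ^ 2 * E₀ *
      (d * j * Q * H) ^ (ε / 2) * H⁻¹ * (1 + k / j) = (w ^ 2 * c₀ ^ 2 * H⁻¹ ^ 2 * s ^ 2) *
        (c₀⁻¹ ^ 2 * (C * B ^ 2 * hR * E₀ * (d * j * Q * H) ^ (ε / 2) * H *
      (j + k))) := by
      field_simp
    rw [e1, e2] at h3
    exact le_of_mul_le_mul_left h3 (by positivity)
  have hY1 : 1 ≤ d * (j * Q) * Ci :=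
    one_le_mul_of_one_le_of_one_le (one_le_mul_of_one_le_of_one_le hd
      (one_le_mul_of_one_le_of_one_le hj hQ)) hCi
  have hY0' : 0 < d * (j * Q) * Ci := by linarith
  have hE' : 0 ≤ E := by
    by_contra hneg
    have h5 : 0 < (d * (j * Q) * Ci) ^ (ε / 2) := Real.rpow_pos_of_pos hY0' _
    have : E * (d * (j * Q) * Ci) ^ (ε / 2) < 0 := mul_neg_of_neg_of_pos (not_le.1 hneg) h5
    linarith
  have h6 : (d * j * Q * H) ^ (ε / 2) ≤ 2 ^ n * (d * (j * Q) * Ci) ^ (ε / 2) := by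
    have e2 : d * j * Q * H ≤ 2 ^ n * (d * (j * Q) * Ci) := by
      have : Ci ^ (1 / 3 : ℝ) ≤ Ci := by
        conv_rhs => rw [← Real.rpow_one Ci]
        exact Real.rpow_le_rpow_of_exponent_le hCi (by norm_num)
      have : H ≤ 2 ^ n * Ci := hHC.trans (by gcongr)
      calc d * j * Q * H ≤ d * j * Q * (2 ^ n * Ci) := by gcongr
        _ = _ := by ring
    calc (d * j * Q * H) ^ (ε / 2) ≤ (2 ^ n * (d * (j * Q) * Ci)) ^ (ε / 2) :=
          Real.rpow_le_rpow (by positivity) e2 (by linarith)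
      _ = ((2 : ℝ) ^ n) ^ (ε / 2) * (d * (j * Q) * Ci) ^ (ε / 2) :=
          Real.mul_rpow (by positivity) (by positivity)
      _ ≤ ((2 : ℝ) ^ n) ^ (1 : ℝ) * (d * (j * Q) * Ci) ^ (ε / 2) := by
          apply mul_le_mul_of_nonneg_right _ (Real.rpow_nonneg hY0'.le _)
          exact Real.rpow_le_rpow_of_exponent_le (one_le_pow₀ (by norm_num)) (by linarith)
      _ = _ := by rw [Real.rpow_one]
  have hB2 : 0 ≤ B ^ 2 := sq_nonneg B
  have hYh : 0 ≤ (d * (j * Q) * Ci) ^ (ε / 2) := Real.rpow_nonneg hY0'.le _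
  have e3 : (d * (j * Q) * Ci) ^ ε = (d * (j * Q) * Ci) ^ (ε / 2) *
      (d * (j * Q) * Ci) ^ (ε / 2) := by
    rw [← Real.rpow_add hY0']
    congr 1
    ring
  calc T ^ 2 ≤ c₀⁻¹ ^ 2 * (C * B ^ 2 * hR * E₀ * (d * j * Q * H) ^ (ε / 2) * H *
      (j + k)) := h4
    _ ≤ c₀⁻¹ ^ 2 * (C * B ^ 2 * hR * (E * (d * (j * Q) * Ci) ^ (ε / 2)) *
        (2 ^ n * (d * (j * Q) * Ci) ^ (ε / 2)) *
        (2 ^ n * Ci ^ (1 / 3 : ℝ)) * (j + k)) := by
        gcongr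
    _ = _ := by
        rw [e3]
        ring

open scoped Classical in
theorem pf_BQ (hUQ : V_UQ) (hWL : V_WL) (hBS : Q_BS) (hSG : Q_SG) (hCC : Q_CC) (hCG : U_CG)
    (hGX : Pool.Agent.H29.TC.T_GX) (hDV : Pool.Agent.H29.TC.T_DV) (hDF : Pool.Agent.H29.TC.T_DF)
    (hTR : Q_TR) (hRX : Pool.Agent.H28.RC.T_RX)
    (hRR : Pool.Agent.H23.LB.T_RR) (hTH : Pool.Agent.H25.HK.T_TH) : Q_BQ := by
  intro n hn ε κ hε hε1 hκ hκε
  obtain ⟨C, hC0, hC⟩ := hBS n hn (ε / 2) κ (by linarith) (by linarith) hκ (by linarith)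
  obtain ⟨c₀, hc₀, hc⟩ := hWL n hn
  obtain ⟨Cd, hCd⟩ := hDV n (ε / 6) (by linarith)
  refine ⟨c₀⁻¹ ^ 2 * C * (4 ^ (n * (n + 1)) * max Cd 0 ^ 3) * 2 ^ n * 2 ^ n, by positivity,
    fun K _ _ hK l g q hG χ hχ D t B v hB hWt => ?_⟩
  have hf := f_ne hG
  have hj := j_ne hG
  have hgq := gq_ne hG
  have hreps : Reps K (fun i => du K (((l * (g * q) : Ideal (𝓞 K)) : FI K) * D.M i)) :=
    (hRR K D.ι _ ((hRR K D.ι D.M D.reps).1 _ hf)).2.1
  have hX := fun i : D.ι => hRX K (l * g)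
    (du K (((l * (g * q) : Ideal (𝓞 K)) : FI K) * D.M i)) hj (hreps.1 i)
  choose Y hY hYc using hX
  have hloc := fun i : D.ι => local_dual hSG hCC hCG hGX hTR hRX hTH hK hG χ hχ D i (Y i)
    (hreps.1 i) (hY i)
  choose f hcor hq using hloc
  have hd1 := one_le_disc (K := K)
  have hj1 := one_le_Nf hj
  have hf1 := one_le_Nf hf
  have hq1 := one_le_Nf hG.q_ne
  have hDQ1 : 1 ≤ DQ n (g * q) := by
    unfold DQ
    have h1 := one_le_dvs hDF hgq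
    exact one_le_mul_of_one_le_of_one_le (one_le_pow₀ (by norm_num)) (one_le_pow₀ h1)
  obtain ⟨hX1, hX2⟩ := X_facts hK hG χ t
  have hH1 : 1 ≤ HH (Hpar (cpar χ.k χ.ν t)) := one_le_HH fun v => Hpar_one_le _ v
  have eH := Hpar_neg χ.k χ.ν t
  have hprm : Prm (cpar (-χ.k) (-χ.ν) (-t)) (Hpar (cpar χ.k χ.ν t)) := by
    have := Prm_cpar (-χ.k) (-χ.ν) (-t)
    rwa [eH] at this
  have key := hC K hK D.ι (fun i => du K (((l * (g * q) : Ideal (𝓞 K)) : FI K) * D.M i)) hreps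
    (l * g) q (DQ n (g * q)) f Y (cpar (-χ.k) (-χ.ν) (-t))
    (Hpar (cpar χ.k χ.ν t)) _ B (Nf K (l * g) * Nf K (l * (g * q))) v
    (fun i => ch D χ i) false hj hG.q_ne hDQ1 hcor
    hY hprm hX1 hX2 hB hWt (by positivity)
    (fun i => ⟨_, fun x _ => norm_ft_le (D.X i) _
      (fun r hr => (hCG K _ χ (D.M i) hf (D.reps.1 i)).2.1 r ((D.rep i).1 r hr)) x⟩)
    (fun i p y ω hp hω => hq i _ _ p y ω (fun v => Hpar_one_le _ v)
      (fun v x hx => (hp v).elim fun B' hB' => hB'.supp x hx) hω)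
  have hU := hUQ K _ hf D χ (cpar (-χ.k) (-χ.ν) (-t)) (Hpar (cpar χ.k χ.ν t)) (-t) v
    hprm (Wt_bound hWt)
  have eT : ∀ J : NZI K, (Ideal.absNorm J.1 : ℂ) ^ (-(((-t : ℝ) : ℂ) * I : ℂ)) =
      (Ideal.absNorm J.1 : ℂ) ^ (t * I : ℂ) := by
    intro J
    congr 1
    push_cast
    ring
  simp only [eT] at hU
  have hS : ENNReal.ofReal ‖(torsionOrder K : ℂ) *
      WH K (cpar (-χ.k) (-χ.ν) (-t)) (Hpar (cpar χ.k χ.ν t)) (-χ.k) (-χ.ν) (-t) *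
        ((Real.sqrt (Nf K (l * (g * q))) : ℝ) : ℂ) *
        ∑' J : NZI K, cd D χ J.1 * v (Ideal.absNorm J.1) *
          (Ideal.absNorm J.1 : ℂ) ^ (t * I : ℂ)‖ ≤
      ∑ i, ∫⁻ u in Fd K ×ˢ (univ : Set ℝ) ×ˢ An K,
        ENNReal.ofReal ‖∑' x : {x : K //
            x ∈ du K (((l * (g * q) : Ideal (𝓞 K)) : FI K) * D.M i) ∧ x ≠ 0}, ch D χ i x *
          v (Ideal.absNorm (idl K (du K (((l * (g * q) : Ideal (𝓞 K)) : FI K) * D.M i)) x)) *
            Wg (cpar (-χ.k) (-χ.ν) (-t)) (Hpar (cpar χ.k χ.ν t)) pb x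
              (yM K (du K (((l * (g * q) : Ideal (𝓞 K)) : FI K) * D.M i)) u.2.1 (zs false u.1))
              (om false u.2.2)‖ := by
    rw [← hU]
    refine sum_int_le _ _ _ _ fun i a => ?_
    have e : (((-t : ℝ) : ℂ) * (a.2.1 : ℂ)) = (((-t) * a.2.1 : ℝ) : ℂ) := by push_cast; rfl
    rw [norm_mul, norm_mul, norm_mul (ek _ _), ec_norm, ek_norm, e,
      Complex.norm_exp_ofReal_mul_I, one_mul, one_mul, one_mul]
  have hfin := (pow_le_pow_left₀ (zero_le) hS 2).trans key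
  rw [← ENNReal.ofReal_pow (norm_nonneg _)] at hfin
  have hHR : 0 ≤ (classNumber K : ℝ) * regulator K :=
    mul_nonneg (Nat.cast_nonneg _) (regulator_pos K).le
  have hP0 : 0 ≤ (|(discr K : ℝ)| * Nf K (l * g) * Nf K q * HH (Hpar (cpar χ.k χ.ν t))) ^
      (ε / 2) := Real.rpow_nonneg (by positivity) _
  rw [ENNReal.ofReal_le_ofReal_iff (by
    have := cw_nonneg (K := K)
    have := Real.sqrt_nonneg (Nf K q)
    positivity)] at hfin
  have hsq : 0 < Real.sqrt (Nf K (l * (g * q))) := Real.sqrt_pos.2 (by linarith)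
  rw [norm_mul, norm_mul, norm_mul, Complex.norm_natCast, Complex.norm_real,
    Real.norm_of_nonneg hsq.le] at hfin
  have hW := hc K hK (-χ.k) (-χ.ν) (-t) (by
    have := χ.norm_zero
    simp only [Pi.neg_apply, mul_neg, Finset.sum_neg_distrib, this, neg_zero])
  rw [eH] at hW
  have hfq := Nf_f l g q
  have hCi1 := one_le_Ci χ.k χ.ν t
  have hdv : ((dvs K q).card : ℝ) * DQ n (g * q) ≤ (4 ^ (n * (n + 1)) * max Cd 0 ^ 3) *
      (|(discr K : ℝ)| * (Nf K (l * g) * Nf K q) * Ci χ.k χ.ν t) ^ (ε / 2) := by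
    refine dv_le (n := n) (Cd := max Cd 0) hε hDF hG ?_ ?_
    · refine (hCd K hK (g * q) hgq).trans ?_
      exact mul_le_mul_of_nonneg_right (le_max_left _ _) (Real.rpow_nonneg (by
        have := one_le_Nf hgq
        linarith) _)
    · rw [← hfq]
      have h1 : Nf K (l * (g * q)) ≤ |(discr K : ℝ)| * Nf K (l * (g * q)) :=
        le_mul_of_one_le_left (by linarith) hd1
      exact h1.trans (le_mul_of_one_le_right (by positivity) hCi1)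
  have := numer (B := B) hε hε1 hC0 hc₀ (one_le_tor (K := K)) (cw_le (K := K)) hsq (norm_nonneg _) hHR
    (by positivity) hd1 hj1 hq1 hH1 hCi1 hdv (HH_le hK χ.k χ.ν t) hW (by
      rw [Real.sq_sqrt (by linarith)]
      exact hfin)
  rw [← hfq] at this
  exact this

end Pool.Agent.H54.FW.BQ
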